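import Mathlib
import Pool.Agent.X195.Cox3

set_option autoImplicit false

open Filter Topology Matrix

namespace Pool.Agent.Results.MP_55c352_al.NotPowers

open Pool.Agent.X195.Cox (IsGeometric IsLorentzian form W ProjTendsto ProjInjective)

/-- `x` is a limit direction of the geometric representation with matrix `B` -/
def IsLimitDirection (B : Matrix (Fin 3) (Fin 3) ℝ) (x : Fin 3 → ℝ) : Prop :=
  ∃ p : Fin 3 → ℝ, p ≠ 0 ∧ ∃ g : ℕ → ((Fin 3 → ℝ) ≃ₗ[ℝ] (Fin 3 → ℝ)), (∀ k, g k ∈ W B) ∧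
    ProjInjective (fun k => g k p) ∧ ProjTendsto (fun k => g k p) x

/-- the direction of `x` arises through powers of `w` -/
def ArisesThroughPowers (w : (Fin 3 → ℝ) ≃ₗ[ℝ] (Fin 3 → ℝ)) (x : Fin 3 → ℝ) : Prop :=
  ∃ p : Fin 3 → ℝ, p ≠ 0 ∧ ∃ k : ℕ → ℤ, StrictMono k ∧
    ProjInjective (fun j => (w ^ k j) p) ∧ ProjTendsto (fun j => (w ^ k j) p) x

open Pool.Agent.X195.Cox in
theorem lorentz : IsLorentzian BB := by
  refine ⟨!![1, 0, 1; 0, 0, 2; 0, -1, 2], 2, ?_, ?_⟩
  · rw [Matrix.isUnit_iff_isUnit_det, Matrix.det_fin_three]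
    simp
  · ext i j
    fin_cases i <;> fin_cases j <;>
      simp [BB, Matrix.mul_apply, Fin.sum_univ_three, Matrix.diagonal] <;> norm_num

/-- the Coxeter matrix of the example -/
def MM : CoxeterMatrix (Fin 3) where
  M := !![1, 3, 2; 3, 1, 0; 2, 0, 1]
  isSymm := by
    ext i j
    fin_cases i <;> fin_cases j <;> rfl
  diagonal i := by fin_cases i <;> rfl
  off_diagonal i j h := by
    fin_cases i <;> fin_cases j <;> simp at h ⊢

open Pool.Agent.X195.Cox in
theorem geometric : IsGeometric MM BB where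
  symm := by
    ext i j
    fin_cases i <;> fin_cases j <;> simp [BB]
  finite := by
    intro s t
    fin_cases s <;> fin_cases t <;> simp [BB, MM] <;> norm_num
  infinite := by
    intro s t
    fin_cases s <;> fin_cases t <;> simp [BB, MM]

open Pool.Agent.X195.Cox in
theorem limit_direction : IsLimitDirection BB xx := by
  have hS : SS 0 ≠ 0 := (SS_pos 0).ne'
  have hm : ∀ k : ℕ, ((-1 : ℝ) ^ k) * (-1) ^ k = 1 := fun k => by
    rw [← mul_pow]; simp
  refine ⟨yy 0, ?_, fun k => gg (k + 1), fun k => gg_mem _, ?_, ?_⟩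
  · intro h
    have h0 := congrFun h 0
    have h1 := SS_pos 1
    simp [yy, TT] at h0
    exact h1.ne' h0
  · intro j k hjk c h
    simp only at h
    rw [gg_yy, gg_yy] at h
    have h2 : yy (j + 1) = ((-1) ^ (j + 1) * (c * (-1) ^ (k + 1))) • yy (k + 1) := by
      rw [mul_smul, mul_smul, ← h, smul_smul, hm, one_smul]
    exact hjk (aa_strictMono.injective (aa_smul h2))
  · refine ⟨fun k => - (-1) ^ (k + 1) / SS 0, fun k => ?_, ?_⟩
    · have : ((-1 : ℝ) ^ (k + 1)) ≠ 0 := pow_ne_zero _ (by norm_num)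
      exact div_ne_zero (neg_ne_zero.mpr this) hS
    · have h1 : Tendsto (fun k => (- 1 / SS 0) • yy (k + 1)) atTop
          (𝓝 ((- 1 / SS 0) • ((-SS 0) • xx))) :=
        ((tendsto_add_atTop_iff_nat 1).mpr lim_yy).const_smul _
      have e : (- 1 / SS 0) • ((-SS 0) • xx) = xx := by
        rw [smul_smul]
        have : (-1 / SS 0) * (-SS 0) = 1 := by field_simp
        rw [this, one_smul]
      rw [e] at h1
      refine h1.congr fun k => ?_
      show (-1 / SS 0) • yy (k + 1) = (-(-1) ^ (k + 1) / SS 0) • (gg (k + 1) (yy 0))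
      rw [gg_yy, smul_smul]
      congr 1
      have := hm (k + 1)
      calc (-1 / SS 0) = - (1 : ℝ) / SS 0 := rfl
        _ = - ((-1 : ℝ) ^ (k + 1) * (-1) ^ (k + 1)) / SS 0 := by rw [this]
        _ = _ := by ring

/-- Not every space-like limit direction of a Lorentzian geometric Coxeter system arises through
powers of one element. -/
theorem result : ∃ (M : CoxeterMatrix (Fin 3)) (B : Matrix (Fin 3) (Fin 3) ℝ),
    IsGeometric M B ∧ IsLorentzian B ∧ ∃ x : Fin 3 → ℝ, 0 < form B x x ∧ IsLimitDirection B x ∧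
      ∀ w ∈ W B, ¬ ArisesThroughPowers w x := by
  refine ⟨MM, Pool.Agent.X195.Cox.BB, geometric, lorentz, Pool.Agent.X195.Cox.xx, ?_, ?_, ?_⟩
  · rw [Pool.Agent.X195.Cox.form_xx]; exact one_pos
  · exact limit_direction
  · rintro w hw ⟨p, -, k, hk, hinj, ht⟩
    by_cases hfin : IsOfFinOrder w
    · have hf : Finite (Subgroup.zpowers w) := finite_zpowers.mpr hfin
      obtain ⟨i, j, hij, h⟩ := Finite.exists_ne_map_eq_of_infinite
        (fun j : ℕ => (⟨w ^ k j, Subgroup.zpow_mem_zpowers w _⟩ : Subgroup.zpowers w))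
      refine hinj i j hij 1 ?_
      show (w ^ k i) p = (1 : ℝ) • (w ^ k j) p
      have h2 : w ^ k i = w ^ k j := Subtype.ext_iff.mp h
      rw [one_smul, h2]
    · exact Pool.Agent.X195.Cox.not_powers hw hfin p k hk hinj ht

end Pool.Agent.Results.MP_55c352_al.NotPowers
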